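import Pool.Agent.Work.MP_2738db_nt_S.Interface
import Pool.Agent.Work.MP_2738db_nt_A_helper87.DEC

set_option autoImplicit false

namespace Pool.Agent.Work.MP_2738db_nt_S.helper58

open Finset NumberField
open Pool.Agent.Work.MP_2738db_nt_A (HB)
open Pool.Agent.Work.MP_2738db_nt_A.helper87

theorem logv_prod_pow (K : Type) [Field K] [NumberField K] (ι : Type) [Fintype ι]
    (v : InfinitePlace K) (c : ι → ℕ) (m : ι → ℕ) (hc : ∀ i, 2 ≤ c i) :
    Real.log (v ((∏ i, (c i : 𝓞 K) ^ m i : 𝓞 K) : K)) = ∑ i, (m i : ℝ) * Real.log (c i) := by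
  have h1 : (∏ i, (c i : 𝓞 K) ^ m i : 𝓞 K) = ((∏ i, c i ^ m i : ℕ) : 𝓞 K) := by push_cast; rfl
  rw [h1, place_natCast]
  push_cast
  rw [Real.log_prod]
  · apply Finset.sum_congr rfl
    intro i _
    rw [Real.log_pow]
  · intro i _
    have : (2 : ℝ) ≤ c i := by exact_mod_cast hc i
    positivity

theorem stmt_DECS (hIdl : Stmt_IdlS) (hPig : Stmt_PigS) : Stmt_DecS := by
  obtain ⟨C₁, hC₁, hpig⟩ := hPig
  refine ⟨C₁ + 36, by linarith, ?_⟩
  intro K _ _ ι _ c k l a X T e θ U δ hl hX hc hk hcop ha he h hYX hθ hD hdisc hT hXT hU2 hlU hcard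
    hcU hδ0 hδ1
  have hl1 : 1 ≤ l := hl.one_lt.le
  set Y : ℕ := ∏ i, c i ^ k i with hYdef
  have hY1 : 1 ≤ Y := by
    rw [Nat.one_le_iff_ne_zero, hYdef, Finset.prod_ne_zero_iff]
    intro i _
    have := hc i
    positivity
  have hZ : (a : ℤ) ^ l = (X : ℤ) ^ 1 + e * (Y : ℤ) ^ 1 := by
    rw [pow_one, pow_one, h, hYdef]
    push_cast
    rfl
  have hθ1 : θ ^ l = (X : 𝓞 K) ^ 1 := by rw [pow_one]; exact hθ
  obtain ⟨β, lam0, hprod, hlam, hlamb, hmem⟩ :=
    dec_alg (𝓞 K) l a X Y 1 1 e θ hl hcop le_rfl he hZ hθ1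
  have hlam1 : 1 ≤ lam0 := by rcases hlam with rfl | rfl <;> omega
  have hlaml : lam0 ≤ l := by rcases hlam with rfl | rfl <;> omega
  have hci0 : ∀ i, (c i : 𝓞 K) ≠ 0 := by
    intro i
    have : c i ≠ 0 := by have := hc i; omega
    exact_mod_cast this
  have hY0K : (Y : 𝓞 K) ≠ 0 := by
    have : Y ≠ 0 := by omega
    exact_mod_cast this
  have hlam0 : (lam0 : 𝓞 K) ≠ 0 := by
    have : lam0 ≠ 0 := by omega
    exact_mod_cast this
  have he0 : (e : 𝓞 K) ≠ 0 := by rcases he with rfl | rfl <;> simp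
  have hαβ0 : ((a : 𝓞 K) - θ) * β ≠ 0 := by
    rw [hprod]; exact mul_ne_zero he0 (pow_ne_zero _ hY0K)
  have hα0 : (a : 𝓞 K) - θ ≠ 0 := left_ne_zero_of_mul hαβ0
  set α : 𝓞 K := (a : 𝓞 K) - θ with hα
  have hYK : (Y : 𝓞 K) = ∏ i, (c i : 𝓞 K) ^ k i := by rw [hYdef]; push_cast; rfl
  have hspan : Ideal.span {α * β} = Ideal.span {∏ i, (c i : 𝓞 K) ^ k i} := by
    rw [hprod, pow_one, ← hYK]
    rcases he with rfl | rfl
    · simp
    · rw [Int.cast_neg, Int.cast_one, neg_one_mul, Ideal.span_singleton_neg]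
  obtain ⟨𝔠, 𝔣, hcf, h𝔠, h𝔣⟩ := hIdl (𝓞 K) ι α β (lam0 : 𝓞 K) (fun i => (c i : 𝓞 K)) k hci0 hlam0
    hspan hmem
  have hLcs : ∀ i, 0 ≤ Real.log (Ideal.absNorm (𝔠 i)) ∧
      Real.log (Ideal.absNorm (𝔠 i)) ≤ Module.finrank ℚ K * Real.log (c i) ∧ 𝔠 i ≠ ⊥ :=
    fun i => logN_le K (𝔠 i) (c i) (by have := hc i; omega) (h𝔠 i)
  have h𝔣' : 𝔣 ∣ Ideal.span {((lam0 ^ 2 : ℕ) : 𝓞 K)} := by
    push_cast; exact h𝔣
  obtain ⟨hLf0, hLf, h𝔣0⟩ := logN_le K 𝔣 (lam0 ^ 2) (Nat.one_le_iff_ne_zero.2 (by positivity)) h𝔣'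
  have hDpos : 0 < Module.finrank ℚ K := Module.finrank_pos
  have hD1 : (1 : ℝ) ≤ Module.finrank ℚ K := by exact_mod_cast hDpos
  have hDl : (Module.finrank ℚ K : ℝ) ≤ l := by exact_mod_cast hD
  set D : ℝ := (Module.finrank ℚ K : ℝ) with hDdef
  set Lf : ℝ := Real.log (Ideal.absNorm 𝔣) with hLfdef
  have hla0 : (lam0 : 𝓞 K) * α ≠ 0 := mul_ne_zero hlam0 hα0
  set y : InfinitePlace K → ℝ := fun v => Real.log (v (((lam0 : 𝓞 K) * α : 𝓞 K) : K)) - Lf / D
    with hy
  have hsum : ∑ v, (v.mult : ℝ) * y v = ∑ i, (k i : ℝ) * Real.log (Ideal.absNorm (𝔠 i)) := by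
    have h1 : ∑ v : InfinitePlace K, (v.mult : ℝ) * y v =
        ∑ v : InfinitePlace K, (v.mult : ℝ) * Real.log (v (((lam0 : 𝓞 K) * α : 𝓞 K) : K)) -
          ∑ v : InfinitePlace K, (v.mult : ℝ) * (Lf / D) := by
      rw [← Finset.sum_sub_distrib]
      apply Finset.sum_congr rfl
      intro v _
      rw [hy]; ring
    have h2 : ∑ v : InfinitePlace K, (v.mult : ℝ) * (Lf / D) = Lf := by
      rw [← Finset.sum_mul]
      have : ∑ v : InfinitePlace K, (v.mult : ℝ) = D := by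
        rw [hDdef, ← InfinitePlace.sum_mult_eq]; push_cast; rfl
      rw [this]; field_simp
    rw [h1, h2, sum_log K _ hla0, hcf, map_mul, map_prod]
    push_cast
    have hn1 : ∀ i, (Ideal.absNorm (𝔠 i) : ℝ) ≠ 0 := by
      intro i
      have : Ideal.absNorm (𝔠 i) ≠ 0 := by rw [Ne, Ideal.absNorm_eq_zero_iff]; exact (hLcs i).2.2
      exact_mod_cast this
    have hn2 : (Ideal.absNorm 𝔣 : ℝ) ≠ 0 := by
      have : Ideal.absNorm 𝔣 ≠ 0 := by rw [Ne, Ideal.absNorm_eq_zero_iff]; exact h𝔣0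
      exact_mod_cast this
    have hp : (∏ i, ((Ideal.absNorm (𝔠 i ^ k i) : ℕ) : ℝ)) ≠ 0 := by
      rw [Finset.prod_ne_zero_iff]
      intro i _
      rw [map_pow]
      push_cast
      exact pow_ne_zero _ (hn1 i)
    rw [Real.log_mul hp hn2, Real.log_prod]
    · have h3 : ∀ i, Real.log ((Ideal.absNorm (𝔠 i ^ k i) : ℕ) : ℝ) =
          (k i : ℝ) * Real.log (Ideal.absNorm (𝔠 i)) := by
        intro i
        rw [map_pow]
        push_cast
        rw [Real.log_pow]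
      rw [Finset.sum_congr rfl (fun i _ => h3 i)]
      ring
    · intro i _
      rw [map_pow]
      push_cast
      exact pow_ne_zero _ (hn1 i)
  have hU1 : (1 : ℝ) ≤ U := by linarith
  have hU0 : (0 : ℝ) < U := by linarith
  have hlr1 : (1 : ℝ) ≤ l := by exact_mod_cast hl1
  have hl0 : (0 : ℝ) < l := by linarith
  have hXr : (2 : ℝ) ≤ X := by exact_mod_cast hX
  have hlogX0 : 0 ≤ Real.log X := Real.log_nonneg (by linarith)
  have hlogc0 : ∀ i, 0 ≤ Real.log (c i) := by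
    intro i
    have : (2 : ℝ) ≤ c i := by exact_mod_cast hc i
    exact Real.log_nonneg (by linarith)
  have hlogl0 : 0 ≤ Real.log l := Real.log_nonneg hlr1
  have hloglU : Real.log l ≤ U := by
    have := Real.log_le_sub_one_of_pos hl0
    linarith
  have hloglam0 : 0 ≤ Real.log lam0 := Real.log_nonneg (by exact_mod_cast hlam1)
  have hloglam : Real.log lam0 ≤ Real.log l :=
    Real.log_le_log (by exact_mod_cast hlam1) (by exact_mod_cast hlaml)
  -- the sum of the logarithms of the `c i`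
  obtain ⟨Lc, hLc⟩ : ∃ Lc : ℝ, Lc = ∑ i, Real.log (c i) := ⟨_, rfl⟩
  have hLc0 : 0 ≤ Lc := by rw [hLc]; exact Finset.sum_nonneg fun i _ => hlogc0 i
  have hLcU : Lc ≤ U ^ 2 := by
    rw [hLc]
    calc ∑ i, Real.log (c i) ≤ ∑ _i : ι, U := Finset.sum_le_sum fun i _ => hcU i
      _ = (Fintype.card ι : ℝ) * U := by rw [Finset.sum_const, Finset.card_univ, nsmul_eq_mul]
      _ ≤ U * U := mul_le_mul_of_nonneg_right hcard hU0.le
      _ = U ^ 2 := by ring
  have hU26 : U ^ 2 ≤ U ^ 6 := pow_le_pow_right₀ hU1 (by norm_num)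
  have hU16 : U ≤ U ^ 6 := by
    calc U = U ^ 1 := by ring
      _ ≤ U ^ 6 := pow_le_pow_right₀ hU1 (by norm_num)
  have hU12 : U ≤ U ^ 2 := by nlinarith
  have hU23 : U ^ 2 ≤ U ^ 3 := pow_le_pow_right₀ hU1 (by norm_num)
  have hLfD : Lf / D ≤ 2 * Real.log l := by
    rw [div_le_iff₀ (by linarith)]
    push_cast at hLf
    rw [Real.log_pow] at hLf
    push_cast at hLf
    have : D * (2 * Real.log lam0) ≤ D * (2 * Real.log l) :=
      mul_le_mul_of_nonneg_left (by linarith) (by linarith)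
    linarith
  have hLfD0 : 0 ≤ Lf / D := div_nonneg hLf0 (by linarith)
  obtain ⟨u, s, η, hu1, hu, hη0, hηspan, hs, hηv⟩ := hpig K ι 𝔠 k T y δ (U ^ 6)
    (fun i => (hLcs i).2.2) hT hδ0 hδ1 (by linarith) (by linarith) hdisc (by linarith) (by
      intro i
      calc Real.log (Ideal.absNorm (𝔠 i)) ≤ D * Real.log (c i) := (hLcs i).2.1
        _ ≤ U * U := mul_le_mul (by linarith) (hcU i) (hlogc0 i) hU0.le
        _ = U ^ 2 := by ring
        _ ≤ U ^ 6 := hU26) hsum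
  have hur1 : (1 : ℝ) ≤ u := by exact_mod_cast hu1
  have hTr1 : (1 : ℝ) ≤ T := by exact_mod_cast hT
  have hT0 : (0 : ℝ) < T := by linarith
  obtain ⟨r, hr⟩ : ∃ r : ℕ, r = T / u := ⟨_, rfl⟩
  have hru : r * u ≤ T := by rw [hr]; exact Nat.div_mul_le_self T u
  have hru' : T < (r + 1) * u := by
    rw [hr, add_mul, one_mul]
    have h3 := Nat.div_add_mod T u
    have h4 := Nat.mod_lt T (by omega : u > 0)
    rw [mul_comm (T / u) u]
    omega
  have hruR : (r : ℝ) * u ≤ T := by exact_mod_cast hru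
  have hruR' : (T : ℝ) < (r + 1) * u := by exact_mod_cast hru'
  have hr0 : (0 : ℝ) ≤ r := by positivity
  have hrδ0 : 0 ≤ (r : ℝ) * δ := by positivity
  obtain ⟨E, hE⟩ : ∃ E : ℕ, E = ⌈(r : ℝ) * δ⌉₊ := ⟨_, rfl⟩
  have hE1 : (r : ℝ) * δ ≤ E := by rw [hE]; exact Nat.le_ceil _
  have hE2 : (E : ℝ) ≤ r * δ + 1 := by rw [hE]; exact (Nat.ceil_lt_add_one hrδ0).le
  have hs1 : ∀ i, -δ ≤ (s i : ℝ) - u * k i / T := fun i => (abs_le.1 (hs i)).1
  have hs2 : ∀ i, (s i : ℝ) - u * k i / T ≤ δ := fun i => (abs_le.1 (hs i)).2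
  have hk0 : ∀ i, (0 : ℝ) ≤ k i := fun i => by positivity
  obtain ⟨t, ht⟩ : ∃ t : ℝ, t = r * u / T := ⟨_, rfl⟩
  have ht1 : t ≤ 1 := by rw [ht, div_le_one hT0]; exact hruR
  have ht0 : 0 ≤ t := by rw [ht]; positivity
  have ht2 : 1 - t ≤ u / T := by
    have h1 : (1 : ℝ) < ((r : ℝ) + 1) * u / T := by rw [lt_div_iff₀ hT0]; linarith
    have h2 : ((r : ℝ) + 1) * u / T = t + u / T := by rw [ht]; ring
    linarith
  have hsr : ∀ i, s i * r ≤ k i + E := by
    intro i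
    have h1 : (s i : ℝ) * r ≤ k i + E := by
      have h2 : (s i : ℝ) * r ≤ (u * k i / T + δ) * r := by
        have := hs2 i
        gcongr; linarith
      have h3 : (u * k i / T + δ) * (r : ℝ) = k i * t + r * δ := by rw [ht]; ring
      have h4 : (k i : ℝ) * t ≤ k i := by
        have := hk0 i
        nlinarith
      linarith
    exact_mod_cast h1
  have hEl : E ≤ E * l := Nat.le_mul_of_pos_right _ (by omega)
  -- divisibility
  have hdiv : η ^ r ∣ (lam0 : 𝓞 K) * α * (∏ i, (c i : 𝓞 K)) ^ E := by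
    rw [← Ideal.span_singleton_le_span_singleton, ← Ideal.dvd_iff_le,
      ← Ideal.span_singleton_mul_span_singleton, hcf, ← Ideal.span_singleton_pow,
      ← Ideal.span_singleton_pow, hηspan, ← Finset.prod_pow]
    have h1 : (∏ i, (𝔠 i ^ s i) ^ r) ∣ ∏ i, 𝔠 i ^ (k i + E) := by
      apply Finset.prod_dvd_prod_of_dvd
      intro i _
      rw [← pow_mul]
      exact pow_dvd_pow _ (hsr i)
    have h2 : (∏ i, 𝔠 i ^ (k i + E)) ∣
        (∏ i, 𝔠 i ^ k i) * 𝔣 * Ideal.span {∏ i, (c i : 𝓞 K)} ^ E := by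
      have h3 : (∏ i, 𝔠 i ^ (k i + E)) = (∏ i, 𝔠 i ^ k i) * (∏ i, 𝔠 i) ^ E := by
        rw [← Finset.prod_pow, ← Finset.prod_mul_distrib]
        exact Finset.prod_congr rfl fun i _ => pow_add _ _ _
      have h4 : (∏ i, 𝔠 i) ∣ Ideal.span {∏ i, (c i : 𝓞 K)} := by
        rw [← Ideal.prod_span_singleton]
        exact Finset.prod_dvd_prod_of_dvd _ _ fun i _ => h𝔠 i
      rw [h3]
      exact mul_dvd_mul (Dvd.intro _ rfl) (pow_dvd_pow_of_dvd h4 E)
    exact h1.trans h2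
  obtain ⟨κ, hκ⟩ := hdiv
  have hPc0 : (∏ i, (c i : 𝓞 K)) ≠ 0 := Finset.prod_ne_zero_iff.2 fun i _ => hci0 i
  have hlac : (lam0 : 𝓞 K) * α * (∏ i, (c i : 𝓞 K)) ^ E ≠ 0 :=
    mul_ne_zero hla0 (pow_ne_zero _ hPc0)
  have hκ0 : κ ≠ 0 := by
    rintro rfl
    rw [mul_zero] at hκ
    exact hlac hκ
  have hvPc : ∀ v : InfinitePlace K, Real.log (v ((∏ i, (c i : 𝓞 K) : 𝓞 K) : K)) = Lc := by
    intro v
    have h1 := logv_prod_pow K ι v c (fun _ => 1) hc
    simp only [pow_one, Nat.cast_one, one_mul] at h1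
    rw [h1, hLc]
  -- the size function
  have hUp : ∀ x : ℝ, x ≤ U ^ 7 → x ≤ U ^ (C₁ + 36) := by
    intro x hx
    refine hx.trans ?_
    rw [← Real.rpow_natCast]
    exact Real.rpow_le_rpow_of_exponent_le hU1 (by push_cast; linarith)
  obtain ⟨Z, hZdef⟩ : ∃ Z : ℝ, Z = Real.log l + 2 + Real.log X / l := ⟨_, rfl⟩
  have hYv : ∀ v, y v ≤ Z := by
    intro v
    have h1 : Real.log (v (((lam0 : 𝓞 K) * α : 𝓞 K) : K)) =
        Real.log lam0 + Real.log (v ((α : 𝓞 K) : K)) := by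
      rw [logv_mul K v _ _ hlam0 hα0, place_natCast]
    have h2 := size_alpha K l a X Y 1 1 e θ hl1 hX he hZ (by rw [pow_one, pow_one]; exact hYX) hθ1
      hα0 v
    have h3 : y v = Real.log (v (((lam0 : 𝓞 K) * α : 𝓞 K) : K)) - Lf / D := rfl
    rw [h3, h1, hZdef]
    rw [Nat.cast_one, one_mul] at h2
    linarith
  have hZ0 : 0 ≤ Z := by rw [hZdef]; positivity
  have hun0 : (0 : ℝ) ≤ u / T := by positivity
  -- `l (u/T) Z`
  have hlY : l * (u / T * Z) ≤ u * (3 * U ^ 3) := by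
    have h1 : (l : ℝ) * (u / T * Z) = (u / T) * (l * (Real.log l + 2)) + u / T * Real.log X := by
      rw [hZdef]; field_simp
    have h2 : (l : ℝ) * (Real.log l + 2) ≤ 2 * U ^ 2 := by nlinarith
    have h3 : (u : ℝ) / T ≤ u := div_le_self (by positivity) hTr1
    have h4 : (u : ℝ) / T * (l * (Real.log l + 2)) ≤ u * (2 * U ^ 2) := by
      apply mul_le_mul h3 h2 (by positivity) (by positivity)
    have h5 : (u : ℝ) / T * Real.log X ≤ u * U ^ 2 := by
      calc (u : ℝ) / T * Real.log X ≤ u / T * T := by gcongr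
        _ = u * 1 := by field_simp
        _ ≤ u * U ^ 2 := by gcongr; nlinarith
    have h6 : (u : ℝ) * U ^ 2 ≤ u * U ^ 3 := by gcongr
    rw [h1]; linarith
  have hkX : ∑ i, (k i : ℝ) * Real.log (c i) ≤ Real.log X := by
    have h1 : ∑ i, (k i : ℝ) * Real.log (c i) = Real.log ((Y : ℕ) : ℝ) := by
      rw [hYdef]
      push_cast
      rw [Real.log_prod]
      · exact Finset.sum_congr rfl fun i _ => (Real.log_pow _ _).symm
      · intro i _
        have : (2 : ℝ) ≤ c i := by exact_mod_cast hc i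
        positivity
    rw [h1]
    exact Real.log_le_log (by exact_mod_cast hY1) (by exact_mod_cast hYX)
  have hk00 : 0 ≤ ∑ i, (k i : ℝ) * Real.log (c i) :=
    Finset.sum_nonneg fun i _ => mul_nonneg (hk0 i) (hlogc0 i)
  have hklogn : (u : ℝ) / T * (∑ i, (k i : ℝ) * Real.log (c i)) ≤ u := by
    calc (u : ℝ) / T * (∑ i, (k i : ℝ) * Real.log (c i)) ≤ u / T * T := by
          apply mul_le_mul_of_nonneg_left _ hun0
          linarith
      _ = u := by field_simp
  have hUC : U ^ 7 ≤ U ^ (C₁ + 36) := hUp _ le_rfl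
  have hU37 : 8 * U ^ 3 ≤ U ^ 7 := by
    have h1 : (8 : ℝ) ≤ U ^ 4 := by
      calc (8 : ℝ) ≤ 2 ^ 4 := by norm_num
        _ ≤ U ^ 4 := pow_le_pow_left₀ (by norm_num) hU2 4
    calc 8 * U ^ 3 ≤ U ^ 4 * U ^ 3 := by gcongr
      _ = U ^ 7 := by ring
  have hU3C : 8 * U ^ 3 ≤ U ^ (C₁ + 36) := hU37.trans hUC
  have hll : (l : ℝ) * Real.log l ≤ U ^ 3 := by
    calc (l : ℝ) * Real.log l ≤ U * U := mul_le_mul hlU hloglU hlogl0 hU0.le
      _ = U ^ 2 := by ring
      _ ≤ U ^ 3 := hU23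
  have hlc : (l : ℝ) * Lc ≤ U ^ 3 := by
    calc (l : ℝ) * Lc ≤ U * U ^ 2 := mul_le_mul hlU hLcU hLc0 hU0.le
      _ = U ^ 3 := by ring
  have hlEc : (l : ℝ) * (E * Lc) ≤ (r * δ + 1) * U ^ 3 := by
    calc (l : ℝ) * (E * Lc) = E * (l * Lc) := by ring
      _ ≤ (r * δ + 1) * U ^ 3 := mul_le_mul hE2 hlc (by positivity) (by positivity)
  have hsum8 : (8 * U ^ 3) * (u + r * δ) ≤ (u + r * δ) * U ^ (C₁ + 36) := by
    rw [mul_comm]
    exact mul_le_mul_of_nonneg_left hU3C (by positivity)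
  have hU3u : U ^ 3 ≤ u * U ^ 3 := le_mul_of_one_le_left (by positivity) hur1
  have hU13 : (1 : ℝ) ≤ U ^ 3 := one_le_pow₀ hU1
  have hlu3 : (l : ℝ) ≤ u * U ^ 3 := by linarith
  refine ⟨u, s, r, E, fun i => k i + E * l - s i * r, κ, η, (lam0 : 𝓞 K), hu1, ?_, hr, ?_, ?_, hκ0,
    hη0, ?_, ?_, ?_, ?_, ?_, ?_⟩
  · -- size of u
    refine hu.trans ?_
    apply mul_le_mul
    · apply Real.exp_le_exp.2
      have h1 : C₁ ≤ U ^ C₁ := by
        have h2 := one_add_mul_self_le_rpow_one_add (show (-1 : ℝ) ≤ 1 by norm_num) hC₁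
        have h3 : ((1 : ℝ) + 1) ^ C₁ ≤ U ^ C₁ :=
          Real.rpow_le_rpow (by norm_num) (by linarith) (by linarith)
        linarith
      calc C₁ * (U ^ 6) ^ 6 = C₁ * U ^ (36 : ℝ) := by
            rw [← pow_mul, ← Real.rpow_natCast]; norm_num
        _ ≤ U ^ C₁ * U ^ (36 : ℝ) := by gcongr
        _ = U ^ (C₁ + 36) := by rw [Real.rpow_add hU0]
    · apply Real.rpow_le_rpow_of_exponent_le
      · rw [le_div_iff₀ hδ0]; linarith
      · have h3 : (2 : ℝ) * U ^ 6 ≤ U ^ 7 := by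
          calc (2 : ℝ) * U ^ 6 ≤ U * U ^ 6 := by gcongr
            _ = U ^ 7 := by ring
        linarith
    · positivity
    · positivity
  · rcases hlam with rfl | rfl
    · left; simp
    · right; rfl
  · exact Nat.Coprime.cast hlamb
  · rw [hκ]; ring
  · intro i
    have h1 := hsr i
    show k i + E * l = (k i + E * l - s i * r) + s i * r
    omega
  · -- sum of s log c
    have h1 : ∑ i, (s i : ℝ) * Real.log (c i) ≤ u + U ^ 2 := by
      calc ∑ i, (s i : ℝ) * Real.log (c i) ≤ ∑ i, (u * k i / T + δ) * Real.log (c i) := by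
            apply Finset.sum_le_sum
            intro i _
            apply mul_le_mul_of_nonneg_right _ (hlogc0 i)
            have := hs2 i
            linarith
        _ = u / T * (∑ i, (k i : ℝ) * Real.log (c i)) + δ * Lc := by
            rw [hLc, Finset.mul_sum, Finset.mul_sum, ← Finset.sum_add_distrib]
            apply Finset.sum_congr rfl
            intro i _
            ring
        _ ≤ u + 1 * U ^ 2 := add_le_add hklogn (mul_le_mul hδ1 hLcU hLc0 (by norm_num))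
        _ = u + U ^ 2 := by ring
    have h2 : (u : ℝ) ≤ u * U ^ 3 := le_mul_of_one_le_right (by positivity) hU13
    have h3 : (u : ℝ) * (8 * U ^ 3) ≤ u * U ^ (C₁ + 36) :=
      mul_le_mul_of_nonneg_left hU3C (by positivity)
    have h4 : 0 ≤ (u : ℝ) * U ^ 3 := by positivity
    linarith
  · apply hb_of_log K _ (pow_ne_zero _ hη0)
    intro v
    rw [logv_pow]
    have h1 := (abs_le.1 (hηv v)).2
    have h2 : Real.log (v (η : K)) ≤ u / T * Z + 1 := by
      have h3 : (u : ℝ) / T * y v ≤ u / T * Z := mul_le_mul_of_nonneg_left (hYv v) hun0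
      linarith
    have h4 : (l : ℝ) * Real.log (v (η : K)) ≤ l * (u / T * Z) + l := by
      have := mul_le_mul_of_nonneg_left h2 hl0.le
      linarith
    have h5 : (u : ℝ) * (8 * U ^ 3) ≤ u * U ^ (C₁ + 36) :=
      mul_le_mul_of_nonneg_left hU3C (by positivity)
    linarith
  · apply hb_of_log K _ (pow_ne_zero _ hκ0)
    intro v
    rw [logv_pow]
    have h1 := (abs_le.1 (hηv v)).1
    have h2 := congrArg (fun x : 𝓞 K => Real.log (v (x : K))) hκ
    beta_reduce at h2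
    rw [logv_mul K v _ _ hla0 (pow_ne_zero _ hPc0), logv_mul K v _ _ (pow_ne_zero _ hη0) hκ0,
      logv_pow, logv_pow, hvPc] at h2
    have h3 : y v = Real.log (v (((lam0 : 𝓞 K) * α : 𝓞 K) : K)) - Lf / D := rfl
    have h4 : t * y v - r * δ ≤ r * Real.log (v (η : K)) := by
      have h5 : (u : ℝ) / T * y v - δ ≤ Real.log (v (η : K)) := by linarith
      have h6 := mul_le_mul_of_nonneg_left h5 hr0
      have h7 : (r : ℝ) * (u / T * y v - δ) = t * y v - r * δ := by rw [ht]; ring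
      linarith
    have h8 : (1 - t) * y v ≤ u / T * Z := by
      calc (1 - t) * y v ≤ (1 - t) * Z := mul_le_mul_of_nonneg_left (hYv v) (by linarith)
        _ ≤ u / T * Z := mul_le_mul_of_nonneg_right ht2 hZ0
    have h9 : Real.log (v (κ : K)) ≤ u / T * Z + 2 * Real.log l + E * Lc + r * δ := by
      linarith
    have h10 : (l : ℝ) * Real.log (v (κ : K)) ≤ l * (u / T * Z) + 2 * (l * Real.log l) +
        l * (E * Lc) + l * (r * δ) := by
      have := mul_le_mul_of_nonneg_left h9 hl0.le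
      linarith
    have h11 : (l : ℝ) * (r * δ) ≤ (r * δ) * U ^ 3 := by
      calc (l : ℝ) * (r * δ) ≤ U ^ 3 * (r * δ) := by
            apply mul_le_mul_of_nonneg_right _ hrδ0
            linarith
        _ = (r * δ) * U ^ 3 := by ring
    have h12 : 0 ≤ (r * δ) * U ^ 3 := by positivity
    linarith
  · have hce0 : (∏ i, (c i : 𝓞 K) ^ (k i + E * l - s i * r)) ≠ 0 :=
      Finset.prod_ne_zero_iff.2 fun i _ => pow_ne_zero _ (hci0 i)
    apply hb_of_log K _ (mul_ne_zero (pow_ne_zero _ hlam0) hce0)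
    intro v
    rw [logv_mul K v _ _ (pow_ne_zero _ hlam0) hce0, logv_pow, place_natCast,
      logv_prod_pow K ι v c _ hc]
    have h1 : ∀ i, ((k i + E * l - s i * r : ℕ) : ℝ) * Real.log (c i) ≤
        (1 - t) * (k i * Real.log (c i)) + (r * δ) * Real.log (c i) +
          l * (E * Real.log (c i)) := by
      intro i
      have h0 := hsr i
      have h1' : ((k i + E * l - s i * r : ℕ) : ℝ) = k i + E * l - s i * r := by
        rw [Nat.cast_sub (by omega)]; push_cast; ring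
      rw [h1']
      have h2 : (k i : ℝ) * t - r * δ ≤ s i * r := by
        have h3 : (u * k i / T - δ) * (r : ℝ) ≤ s i * r := by
          have := hs1 i
          gcongr; linarith
        have h4 : (u * k i / T - δ) * (r : ℝ) = k i * t - r * δ := by rw [ht]; ring
        linarith
      have h6 : (k i : ℝ) + E * l - s i * r ≤ (1 - t) * k i + r * δ + E * l := by linarith
      have h7 := mul_le_mul_of_nonneg_right h6 (hlogc0 i)
      have h8 : ((1 - t) * k i + r * δ + E * l) * Real.log (c i) =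
        (1 - t) * (k i * Real.log (c i)) + (r * δ) * Real.log (c i) +
          l * (E * Real.log (c i)) := by ring
      linarith
    have h5 : ∑ i, ((k i + E * l - s i * r : ℕ) : ℝ) * Real.log (c i) ≤
        (1 - t) * (∑ i, (k i : ℝ) * Real.log (c i)) + (r * δ) * Lc + l * (E * Lc) := by
      refine (Finset.sum_le_sum fun i _ => h1 i).trans (le_of_eq ?_)
      rw [Finset.sum_add_distrib, Finset.sum_add_distrib, hLc]
      simp only [Finset.mul_sum]
    have h9 : (1 - t) * (∑ i, (k i : ℝ) * Real.log (c i)) ≤ u :=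
      (mul_le_mul_of_nonneg_right ht2 hk00).trans hklogn
    have h10 : (r * δ) * Lc ≤ (r * δ) * U ^ 3 :=
      mul_le_mul_of_nonneg_left (by linarith) hrδ0
    have h11 : (l : ℝ) * Real.log lam0 ≤ U ^ 3 :=
      (mul_le_mul_of_nonneg_left hloglam hl0.le).trans hll
    have h12 : (u : ℝ) ≤ u * U ^ 3 := le_mul_of_one_le_right (by positivity) hU13
    have h13 : 0 ≤ (r * δ) * U ^ 3 := by positivity
    linarith

end Pool.Agent.Work.MP_2738db_nt_S.helper58
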